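import Pool.Agent.Work.MP_65e34f_helper41.PRO

/-!
# MP_65e34f_al, block LWF: lower bound for the words `free r`
-/

namespace Pool.FG.helper41

open Matrix Pool.FG

lemma ncard_prod_fun {α β : Type} [Finite β] (S : Set α) (r : ℕ) :
    (S ×ˢ (Set.univ : Set (Fin r → β))).ncard = S.ncard * Nat.card β ^ r := by
  rw [Set.ncard_prod, Set.ncard_univ, Nat.card_fun, Nat.card_fin]

theorem stmt_LWF (hTRC : Stmt_TRC) (hCRD : Stmt_CRD) (hCNJ : Stmt_CNJ) : Stmt_LWF := by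
  intro r ds _
  refine ⟨2 ^ ds.length * 2 ^ r, 4, fun K _ _ hq hd _ => ?_⟩
  have h1 := (many_Xs hTRC hCNJ K hq ds hd).2
  have h2 : Nat.card K ^ 3 ≤ 2 * Nat.card (SL K) := by
    rw [hCRD K]
    have h3 : Nat.card K ^ 2 ≤ 2 * (Nat.card K ^ 2 - 1) := by
      have : 4 ≤ Nat.card K ^ 2 := by nlinarith
      omega
    calc Nat.card K ^ 3 = Nat.card K * Nat.card K ^ 2 := by ring
      _ ≤ Nat.card K * (2 * (Nat.card K ^ 2 - 1)) := Nat.mul_le_mul_left _ h3
      _ = _ := by ring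
  have h4 : (Tup (.free r) ds (⊤ : Subgroup (SL K))) =
      (Xs ds (⊤ : Subgroup (SL K))) ×ˢ (Set.univ : Set (Fin r → SL K)) := by
    ext t
    constructor
    · rintro ⟨h, _, _⟩; exact ⟨h, trivial⟩
    · rintro ⟨h, _⟩; exact ⟨h, fun _ => trivial, trivial⟩
  have h5 : (Tup (.free r) ds (⊤ : Subgroup (SL K))).ncard =
      (Xs ds (⊤ : Subgroup (SL K))).ncard * Nat.card (SL K) ^ r := by
    rw [h4]
    exact ncard_prod_fun _ r
  show Nat.card K ^ (2 * ds.length + 3 * r) ≤ _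
  rw [h5, pow_add, pow_mul _ 3 r]
  calc Nat.card K ^ (2 * ds.length) * (Nat.card K ^ 3) ^ r
      ≤ (2 ^ ds.length * (Xs ds (⊤ : Subgroup (SL K))).ncard) * (2 * Nat.card (SL K)) ^ r :=
        Nat.mul_le_mul h1 (Nat.pow_le_pow_left h2 r)
    _ = _ := by rw [mul_pow]; ring

end Pool.FG.helper41
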