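import Pool.Agent.Work.MP_65e34f.Basic

/-!
# MP_65e34f_al, block PRO: many products are not scalar
-/

namespace Pool.FG.helper41

open Matrix Pool.FG

/-- many elements with a given trace, for a live period -/
lemma live_set (hTRC : Stmt_TRC) (hCNJ : Stmt_CNJ) (K : Type) [Field K] [Finite K] (m : ℕ)
    (hm : Liv K m) : ∃ τ : K, Nat.card K ^ 2 ≤ Set.ncard {x : SL K | tr x = τ} + Nat.card K ∧
      ∀ x : SL K, tr x = τ → Sc (x ^ m) := by
  obtain ⟨x, hx, hxm⟩ := hm
  refine ⟨tr x, (hTRC K 1 (tr x) one_ne_zero).2.2.1, fun y hy => ?_⟩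
  exact (hCNJ K).2 x y m hx hxm hy

lemma ncard_sc_mul_le (K : Type) [Field K] [Finite K] (y : SL K) :
    Set.ncard {x : SL K | Sc (x * y)} ≤ 2 := by
  have h : {x : SL K | Sc (x * y)} = (fun x => x * y⁻¹) '' {x : SL K | Sc x} := by
    ext x
    simp only [Set.mem_ofPred_eq, Set.mem_image]
    constructor
    · intro h; exact ⟨x * y, h, by group⟩
    · rintro ⟨z, hz, rfl⟩; simpa using hz
  rw [h]
  exact (Set.ncard_image_le (Set.toFinite _)).trans ncard_Sc_le

/-- the number of `x` with `x^m = ±1` and `x y` not scalar -/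
lemma many_head (hTRC : Stmt_TRC) (hCNJ : Stmt_CNJ) (K : Type) [Field K] [Finite K]
    (hq : 4 ≤ Nat.card K) (m : ℕ) (hm : Liv K m) (y : SL K) :
    Nat.card K ^ 2 ≤ 2 * Set.ncard {x : SL K | Sc (x ^ m) ∧ ¬ Sc (x * y)} := by
  obtain ⟨τ, h1, h2⟩ := live_set hTRC hCNJ K m hm
  have h3 : {x : SL K | tr x = τ} ⊆ {x : SL K | Sc (x ^ m) ∧ ¬ Sc (x * y)} ∪
      {x : SL K | Sc (x * y)} := by
    intro x hx
    by_cases h : Sc (x * y)
    · exact Or.inr h
    · exact Or.inl ⟨h2 x hx, h⟩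
  have h4 := Set.ncard_le_ncard h3 (Set.toFinite _)
  have h5 := h4.trans (Set.ncard_union_le _ _)
  have h6 := ncard_sc_mul_le K y
  have h7 : 2 * Nat.card K + 4 ≤ Nat.card K ^ 2 := by nlinarith
  omega

/-- all lists -/
lemma many_Xs (hTRC : Stmt_TRC) (hCNJ : Stmt_CNJ) (K : Type) [Field K] [Finite K]
    (hq : 4 ≤ Nat.card K) (ds : List ℕ) (hd : ∀ m ∈ ds, Liv K m) :
    (ds ≠ [] → Nat.card K ^ (2 * ds.length) ≤ 2 ^ ds.length *
      Set.ncard {xs | xs ∈ Xs ds (⊤ : Subgroup (SL K)) ∧ ¬ Sc xs.prod}) ∧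
    Nat.card K ^ (2 * ds.length) ≤ 2 ^ ds.length * (Xs ds (⊤ : Subgroup (SL K))).ncard := by
  induction ds with
  | nil => simp
  | cons m ds ih =>
    have ih' := (ih (fun k hk => hd k (List.mem_cons_of_mem _ hk))).2
    have hm := hd m (List.mem_cons_self)
    have key : Nat.card K ^ (2 * (m :: ds).length) ≤ 2 ^ (m :: ds).length *
      Set.ncard {xs | xs ∈ Xs (m :: ds) (⊤ : Subgroup (SL K)) ∧ ¬ Sc xs.prod} := by
      have hfin : (Xs (m :: ds) (⊤ : Subgroup (SL K))).Finite := Xs_finite _ _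
      set s : Set (List (SL K)) := {xs | xs ∈ Xs (m :: ds) (⊤ : Subgroup (SL K)) ∧ ¬ Sc xs.prod}
        with hs
      have hsfin : s.Finite := hfin.subset (fun x hx => hx.1)
      obtain ⟨B, hB⟩ : ∃ B : ℕ, ∀ n : ℕ, B ≤ n ↔ Nat.card K ^ 2 ≤ 2 * n :=
        ⟨(Nat.card K ^ 2 + 1) / 2, fun n => by omega⟩
      have h := mul_le_ncard_of_fiber (s := s) (t := Xs ds (⊤ : Subgroup (SL K))) hsfin
        (Xs_finite _ _) List.tail B (by
          intro ys hys
          rw [hB]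
          refine (many_head hTRC hCNJ K hq m hm ys.prod).trans ?_
          have hinj : Function.Injective (fun x : SL K => x :: ys) :=
            fun a b hab => (List.cons.inj hab).1
          rw [← Set.ncard_image_of_injective _ hinj]
          apply Nat.mul_le_mul_left
          apply Set.ncard_le_ncard _ (hsfin.subset (fun x hx => hx.1))
          rintro _ ⟨x, ⟨hx1, hx2⟩, rfl⟩
          refine ⟨⟨cons_mem_Xs.mpr ⟨trivial, hx1, hys⟩, ?_⟩, rfl⟩
          simpa using hx2)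
      have hB0 : Nat.card K ^ 2 ≤ 2 * B := (hB B).mp le_rfl
      rw [List.length_cons, mul_add, mul_one, pow_add, pow_succ]
      calc Nat.card K ^ (2 * ds.length) * Nat.card K ^ 2
          ≤ (2 ^ ds.length * (Xs ds (⊤ : Subgroup (SL K))).ncard) * (2 * B) :=
            Nat.mul_le_mul ih' hB0
        _ = 2 ^ ds.length * 2 * ((Xs ds (⊤ : Subgroup (SL K))).ncard * B) := by ring
        _ ≤ 2 ^ ds.length * 2 * s.ncard := Nat.mul_le_mul_left _ h
    refine ⟨fun _ => key, key.trans ?_⟩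
    apply Nat.mul_le_mul_left
    exact Set.ncard_le_ncard (fun x hx => hx.1) (Xs_finite _ _)

theorem stmt_PRO (hTRC : Stmt_TRC) (hCNJ : Stmt_CNJ) : Stmt_PRO := by
  intro ds hne _
  refine ⟨2 ^ ds.length, 4, fun K _ _ hq hd => ?_⟩
  exact (many_Xs hTRC hCNJ K hq ds hd).1 hne

end Pool.FG.helper41
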