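import Pool.Agent.Work.MP_65e34f.Basic

/-!
# MP_65e34f_al, block SQT: fibres of `a² b²`
-/

namespace Pool.FG.helper41

open Matrix Pool.FG

section
variable {K : Type} [Field K]

/-- the numbers `w² - 2`, `w ≠ 0` -/
def sqs (K : Type) [Field K] : Set K := (fun w : K => w ^ 2 - 2) '' {w : K | w ≠ 0}

omit [Field K] in
lemma ncard_pair_le (a b : K) : Set.ncard ({a, b} : Set K) ≤ 2 :=
  (Set.ncard_insert_le _ _).trans (by simp)

lemma quad_ncard_le [Finite K] (b c : K) : Set.ncard {t : K | t ^ 2 + b * t + c = 0} ≤ 2 := by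
  by_cases h : ∃ t0 : K, t0 ^ 2 + b * t0 + c = 0
  · obtain ⟨t0, h0⟩ := h
    have hsub : {t : K | t ^ 2 + b * t + c = 0} ⊆ {t0, -b - t0} := by
      intro t ht
      have ht' : t ^ 2 + b * t + c = 0 := ht
      have h1 : (t - t0) * (t - (-b - t0)) = 0 := by linear_combination ht' - h0
      rcases mul_eq_zero.mp h1 with h1 | h1
      · left; exact sub_eq_zero.mp h1
      · right; exact sub_eq_zero.mp h1
    exact (Set.ncard_le_ncard hsub (Set.toFinite _)).trans (ncard_pair_le _ _)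
  · have : {t : K | t ^ 2 + b * t + c = 0} = ∅ := by
      ext t; simp only [Set.mem_ofPred_eq, Set.mem_empty_iff_false, iff_false]
      exact fun ht => h ⟨t, ht⟩
    rw [this]; simp

lemma sqs_ncard [Finite K] : Nat.card K ≤ 2 * (sqs K).ncard + 1 := by
  have h1 : Set.ncard {w : K | w ≠ 0} ≤ (sqs K).ncard * 2 := by
    apply ncard_le_mul_of_fiber (Set.toFinite _) (Set.toFinite _) (fun w : K => w ^ 2 - 2)
      (fun w hw => Set.mem_image_of_mem _ hw)
    intro b _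
    have hsub : {a : K | a ∈ {w : K | w ≠ 0} ∧ a ^ 2 - 2 = b} ⊆
        {t : K | t ^ 2 + 0 * t + (-2 - b) = 0} := by
      rintro a ⟨_, ha⟩
      show a ^ 2 + 0 * a + (-2 - b) = 0
      linear_combination ha
    exact (Set.ncard_le_ncard hsub (Set.toFinite _)).trans (quad_ncard_le _ _)
  have h2 : Nat.card K ≤ Set.ncard {w : K | w ≠ 0} + 1 := by
    have h3 : (Set.univ : Set K) ⊆ {w : K | w ≠ 0} ∪ {0} := by
      intro w _
      by_cases h : w = 0
      · right; exact h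
      · left; exact h
    have h4 := Set.ncard_le_ncard h3 (Set.toFinite _)
    rw [Set.ncard_univ] at h4
    refine h4.trans ((Set.ncard_union_le _ _).trans ?_)
    simp
  omega

end

theorem stmt_SQT (hTWO : Stmt_TWO) (hSQR : Stmt_SQR) : Stmt_SQT := by
  refine ⟨32, 16, fun K _ _ hq z hz => ?_⟩
  obtain ⟨-, -, -, hroot⟩ := hSQR K
  have hT := sqs_ncard (K := K)
  set n := (sqs K).ncard with hn
  -- the pairs of traces
  let G : Set (K × K) := {p | p.1 ∈ sqs K ∧ p.2 ∈ {t : K | t ∈ sqs K ∧ kap (tr z) p.1 t ≠ 2}}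
  have hG : n * (n - 2) ≤ G.ncard := by
    apply le_ncard_prod (Set.toFinite _) (fun τ : K => {t : K | t ∈ sqs K ∧ kap (tr z) τ t ≠ 2})
      (fun _ _ => Set.toFinite _)
    intro τ _
    have hsub : sqs K ⊆ {t : K | t ∈ sqs K ∧ kap (tr z) τ t ≠ 2} ∪
        {t : K | t ^ 2 + (-(tr z * τ)) * t + ((tr z) ^ 2 + τ ^ 2 - 4) = 0} := by
      intro t ht
      by_cases h : kap (tr z) τ t = 2
      · right
        have h' : (tr z) ^ 2 + τ ^ 2 + t ^ 2 - tr z * τ * t - 2 = 2 := h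
        show t ^ 2 + (-(tr z * τ)) * t + ((tr z) ^ 2 + τ ^ 2 - 4) = 0
        linear_combination h'
      · left; exact ⟨ht, h⟩
    have h1 := (Set.ncard_le_ncard hsub (Set.toFinite _)).trans (Set.ncard_union_le _ _)
    have h2 := quad_ncard_le (-(tr z * τ)) ((tr z) ^ 2 + τ ^ 2 - 4)
    omega
  -- the elements `x`
  let S : Set (SL K) := {x | ∃ a b : SL K, a ^ 2 = x⁻¹ ∧ b ^ 2 = x * z}
  have hS : G.ncard * (Nat.card K - 3) ≤ S.ncard := by
    apply mul_le_ncard_of_fiber (Set.toFinite _) (Set.toFinite _)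
      (fun x : SL K => ((tr x, tr (z * x)) : K × K))
    rintro ⟨τ, t⟩ ⟨hτ, ht, hk⟩
    have h1 := (hTWO K z hz τ t).2 hk
    have h2 : Set.ncard {x : SL K | tr x = τ ∧ tr (z * x) = t} ≤
        Set.ncard {x : SL K | x ∈ S ∧ (tr x, tr (z * x)) = (τ, t)} := by
      apply Set.ncard_le_ncard _ (Set.toFinite _)
      rintro x ⟨hx1, hx2⟩
      obtain ⟨w1, hw1, hw1'⟩ := hτ
      obtain ⟨w2, hw2, hw2'⟩ := ht
      obtain ⟨a, ha⟩ := hroot x⁻¹ w1 hw1 (by rw [tr_inv, hx1]; exact hw1'.symm)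
      obtain ⟨b, hb⟩ := hroot (x * z) w2 hw2 (by rw [tr_mul_comm, hx2]; exact hw2'.symm)
      exact ⟨⟨a, b, ha, hb⟩, by rw [hx1, hx2]⟩
    omega
  have hfin : S.ncard ≤ Set.ncard {w : SL K × SL K | w.1 ^ 2 * w.2 ^ 2 = z} := by
    have hsub : S ⊆ (fun w : SL K × SL K => (w.1 ^ 2)⁻¹) ''
        {w : SL K × SL K | w.1 ^ 2 * w.2 ^ 2 = z} := by
      rintro x ⟨a, b, ha, hb⟩
      refine ⟨(a, b), ?_, ?_⟩
      · show a ^ 2 * b ^ 2 = z
        rw [ha, hb]; group
      · show (a ^ 2)⁻¹ = x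
        rw [ha]; group
    exact (Set.ncard_le_ncard hsub (Set.toFinite _)).trans (Set.ncard_image_le (Set.toFinite _))
  have h1 : Nat.card K ≤ 4 * n := by omega
  have h2 : Nat.card K ≤ 4 * (n - 2) := by omega
  have h3 : Nat.card K ≤ 2 * (Nat.card K - 3) := by omega
  calc Nat.card K ^ 3 = Nat.card K * Nat.card K * Nat.card K := by ring
    _ ≤ (4 * n) * (4 * (n - 2)) * (2 * (Nat.card K - 3)) :=
        Nat.mul_le_mul (Nat.mul_le_mul h1 h2) h3
    _ = 32 * (n * (n - 2) * (Nat.card K - 3)) := by ring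
    _ ≤ 32 * (G.ncard * (Nat.card K - 3)) := Nat.mul_le_mul_left _ (Nat.mul_le_mul_right _ hG)
    _ ≤ 32 * S.ncard := Nat.mul_le_mul_left _ hS
    _ ≤ _ := Nat.mul_le_mul_left _ hfin

end Pool.FG.helper41
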